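import Pool.Agent.Lib.MP_7d449a_al.Bdd

/-!
# The Tits core of a boundedly generated group

Let `G` be a totally disconnected locally compact group, `C` a compact subset and suppose that the
products of at most `m` integer powers of elements of `C` are dense in `G`. Then the discrete
residual of `G` is the closure of the Tits core, it is generated as a closed normal subgroup by the
contraction groups of the elements of `C` and their inverses, and the quotient of `G` by it has
arbitrarily small open normal subgroups.
-/

set_option autoImplicit false

open Set Filter Topology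
open scoped Pointwise

namespace Pool.Agent.Results.MP_7d449a_al.BoundedGeneration

/-- The contraction group of `g`, as a set. -/
def contractionGroup {G : Type*} [Group G] [TopologicalSpace G] (g : G) : Set G :=
  {x : G | Tendsto (fun n : ℕ => g ^ n * x * (g ^ n)⁻¹) atTop (𝓝 1)}

/-- The Tits core: the subgroup generated by all contraction groups. -/
def titsCore (G : Type*) [Group G] [TopologicalSpace G] : Subgroup G :=
  Subgroup.closure (⋃ g : G, contractionGroup g)

/-- The discrete residual: the intersection of all open normal subgroups. -/
def discreteResidual (G : Type*) [Group G] [TopologicalSpace G] : Subgroup G :=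
  sInf {H : Subgroup G | IsOpen (H : Set G) ∧ H.Normal}

/-- The products of at most `m` integer powers of elements of `C`. -/
def powerProducts {G : Type*} [Group G] (C : Set G) (m : ℕ) : Set G :=
  {x | ∃ l : List G, l.length ≤ m ∧ (∀ y ∈ l, ∃ c ∈ C, ∃ k : ℤ, c ^ k = y) ∧ l.prod = x}

/-- The discrete residual of a group which is boundedly generated by the powers of the elements of
a compact set is the closure of the Tits core. -/
theorem result {G : Type*} [Group G] [TopologicalSpace G] [IsTopologicalGroup G] [T2Space G]
    [LocallyCompactSpace G] [TotallyDisconnectedSpace G] (C : Set G) (hC : IsCompact C) (m : ℕ)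
    (hd : Dense (powerProducts C m)) :
    (discreteResidual G : Set G) = closure (titsCore G : Set G) ∧
    (∀ N : Subgroup G, N.Normal → IsClosed (N : Set G) →
      (∀ c ∈ C, contractionGroup c ⊆ N ∧ contractionGroup c⁻¹ ⊆ N) → discreteResidual G ≤ N) ∧
    ∀ W ∈ 𝓝 (1 : G), ∃ H : Subgroup G, H.Normal ∧ IsOpen (H : Set G) ∧
      (H : Set G) ⊆ W * (discreteResidual G : Set G) :=
  ⟨Pool.Agent.Lib.MP7d449a.residual_eq hC hd,
    fun _ hNn hNc hN => Pool.Agent.Lib.MP7d449a.residual_le hC hd hNn hNc hN,
    fun _ hW => Pool.Agent.Lib.MP7d449a.small_normal hC hd hW⟩

/-- So Q1 has a positive answer for these groups. -/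
theorem dense_titsCore {G : Type*} [Group G] [TopologicalSpace G] [IsTopologicalGroup G]
    [T2Space G] [LocallyCompactSpace G] [TotallyDisconnectedSpace G] (C : Set G)
    (hC : IsCompact C) (m : ℕ) (hd : Dense (powerProducts C m))
    (hG : ∀ H : Subgroup G, IsOpen (H : Set G) → H.Normal → H = ⊤) :
    Dense (titsCore G : Set G) := by
  have h1 : discreteResidual G = ⊤ := by
    rw [eq_top_iff]
    refine le_sInf fun H hH => ?_
    rw [hG H hH.1 hH.2]
  intro x
  have h2 := (result C hC m hd).1
  rw [h1] at h2
  rw [← h2]
  exact mem_univ x

end Pool.Agent.Results.MP_7d449a_al.BoundedGeneration
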